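import Mathlib
import Pool.Agent.W2helper24.TQ.Stm

/-!
# Project TQ, piece A6: the tower `K(i)`, `F(i)`
-/

set_option autoImplicit false

namespace Pool.Agent.W2helper15.TQ

open NumberField Pool.Agent.W2helper24.TQ

/-- the extension by a square root of `-1` -/
abbrev Q (F : Type) [Field F] : Type := QuadraticAlgebra F (-1) 0

section basic

variable (F : Type) [Field F]

/-- conjugation -/
def cjE : Q F ≃ₐ[F] Q F :=
  { toFun := fun z => ⟨z.re, -z.im⟩
    invFun := fun z => ⟨z.re, -z.im⟩
    left_inv := fun z => by ext <;> simp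
    right_inv := fun z => by ext <;> simp
    map_mul' := fun z w => by
      ext <;> simp
      ring
    map_add' := fun z w => by ext <;> simp [add_comm]
    commutes' := fun r => by ext <;> simp }

end basic

section maps

variable (K F : Type) [Field K] [Field F] [Algebra K F]

open scoped QuadraticAlgebra in
/-- the map of the extensions -/
def qmap : Q K →+* Q F :=
  { toFun := fun z => ⟨algebraMap K F z.re, algebraMap K F z.im⟩
    map_one' := by ext <;> simp
    map_zero' := by ext <;> simp
    map_mul' := fun z w => by ext <;> simp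
    map_add' := fun z w => by ext <;> simp }

end maps

section action

variable (G F : Type) [Group G] [Field F] [MulSemiringAction G F]

open scoped QuadraticAlgebra in
/-- the action on the coefficients -/
@[implicit_reducible] def act : MulSemiringAction G (Q F) :=
  { (inferInstance : DistribMulAction G (Q F)) with
    smul_one := fun g => by ext <;> simp
    smul_mul := fun g z w => by ext <;> simp }

end action

attribute [local instance] act

/-- no square root of `-1` in the third cyclotomic field -/
lemma no_i_K (K : Type) [Field K] [NumberField K] [IsCyclotomicExtension {3} ℚ K] (x : K) :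
    x ^ 2 ≠ -1 := by
  intro hx
  obtain ⟨ζ, hζ⟩ := IsCyclotomicExtension.exists_isPrimitiveRoot ℚ K (S := {3}) (n := 3) rfl (by norm_num)
  have h4' : orderOf x = 2 ^ (1 + 1) := by
    apply orderOf_eq_prime_pow
    · rw [pow_one, hx]
      norm_num
    · rw [show 2 ^ (1 + 1) = 2 * 2 by norm_num, pow_mul, hx]
      norm_num
  have h3' : orderOf ζ = 3 := hζ.eq_orderOf.symm
  have h12 : IsPrimitiveRoot (ζ * x) 12 := by
    have h := (Commute.all ζ x).orderOf_mul_eq_mul_orderOf_of_coprime (by rw [h3', h4']; norm_num)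
    rw [h3', h4'] at h
    rw [show (12 : ℕ) = 3 * 2 ^ (1 + 1) by norm_num, ← h]
    exact IsPrimitiveRoot.orderOf _
  have h2 := h12.totient_le_degree_minpoly
  have h3 : Module.finrank ℚ K = 2 := by
    have := IsCyclotomicExtension.finrank (n := 3) K (K := ℚ) (Polynomial.cyclotomic.irreducible_rat (by norm_num))
    rw [this]
    decide
  have h5 : minpoly ℤ (ζ * x) ≠ 0 := minpoly.ne_zero (h12.isIntegral (by norm_num))
  have h6 : (minpoly ℚ (ζ * x)).natDegree = (minpoly ℤ (ζ * x)).natDegree := by
    rw [minpoly.isIntegrallyClosed_eq_field_fractions' ℚ (h12.isIntegral (by norm_num)),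
      (minpoly.monic (h12.isIntegral (by norm_num))).natDegree_map]
  have h7 : (minpoly ℚ (ζ * x)).natDegree ≤ 2 := by
    rw [← h3]
    exact minpoly.natDegree_le _
  have h8 : Nat.totient 12 = 4 := by decide
  omega

/-- no square root of `-1` in `F` -/
lemma no_i_F (K F : Type) [Field K] [NumberField K] [IsCyclotomicExtension {3} ℚ K]
    [Field F] [NumberField F] [Algebra K F] (n : ℕ) (hn : Module.finrank K F = 3 ^ n) (x : F) :
    x ^ 2 ≠ -1 := by
  intro hx
  have hint : IsIntegral K x := Algebra.IsIntegral.isIntegral x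
  have h1 : (minpoly K x).natDegree ∣ 3 ^ n := by
    rw [← hn]; exact minpoly.degree_dvd hint
  have h2 : minpoly K x ∣ (Polynomial.X ^ 2 + 1 : Polynomial K) := by
    apply minpoly.dvd
    simp [hx]
  have h3 : (minpoly K x).natDegree ≤ 2 := by
    have := Polynomial.natDegree_le_of_dvd h2 (by
      intro h
      have h' := congrArg (Polynomial.eval 0) h
      simp at h')
    refine this.trans ?_
    compute_degree
  have h4 : (minpoly K x).natDegree = 1 := by
    have h5 : 0 < (minpoly K x).natDegree := minpoly.natDegree_pos hint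
    have h6 : (minpoly K x).natDegree ≠ 2 := by
      intro h
      rw [h] at h1
      have := (Nat.Prime.dvd_of_dvd_pow Nat.prime_two h1)
      omega
    omega
  obtain ⟨y, hy⟩ := minpoly.mem_range_of_degree_eq_one K x (by
    rw [Polynomial.degree_eq_natDegree (minpoly.ne_zero hint), h4]; rfl)
  apply no_i_K K y
  apply (algebraMap K F).injective
  rw [map_pow, hy, hx]
  simp


section main

variable (K F : Type) [Field K] [Field F] [Algebra K F]

/-- the algebra structure over `Q K` -/
@[implicit_reducible] def algQ : Algebra (Q K) (Q F) := (qmap K F).toAlgebra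

attribute [local instance] algQ

lemma algQ_apply (z : Q K) : algebraMap (Q K) (Q F) z = ⟨algebraMap K F z.re, algebraMap K F z.im⟩ :=
  rfl

theorem towQ : IsScalarTower K (Q K) (Q F) := IsScalarTower.of_algebraMap_eq (fun x => by
  rw [algQ_apply]
  ext
  · simp
    rfl
  · simp
    rfl)

theorem towF : IsScalarTower K F (Q F) := IsScalarTower.of_algebraMap_eq (fun _ => rfl)

theorem invQ [FiniteDimensional K F] [IsGalois K F] : Algebra.IsInvariant (Q K) (Q F) Gal(F/K) where
  isInvariant := by
    intro b hb
    have h1 : ∀ x : F, (∀ g : Gal(F/K), g x = x) → ∃ y : K, algebraMap K F y = x := by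
      intro x hx
      exact (IsGalois.mem_range_algebraMap_iff_fixed x).mpr hx
    obtain ⟨y, hy⟩ := h1 b.re (fun g => congrArg QuadraticAlgebra.re (hb g))
    obtain ⟨z, hz⟩ := h1 b.im (fun g => congrArg QuadraticAlgebra.im (hb g))
    refine ⟨⟨y, z⟩, ?_⟩
    rw [algQ_apply]
    ext
    · exact hy
    · exact hz

theorem galQ [FiniteDimensional K F] [IsGalois K F] : IsGaloisGroup Gal(F/K) (Q K) (Q F) where
  faithful := ⟨by
    intro g h hgh
    ext x
    exact congrArg QuadraticAlgebra.re (hgh (⟨x, 0⟩ : Q F))⟩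
  commutes := ⟨by
    intro g x y
    rw [Algebra.smul_def, Algebra.smul_def, smul_mul']
    congr 1
    rw [algQ_apply]
    ext
    · exact g.commutes x.re
    · exact g.commutes x.im⟩
  isInvariant := invQ K F

/-- the square root of `-1` is not in the field -/
lemma factQ (h : ∀ x : F, x ^ 2 ≠ -1) : Fact (∀ r : F, r ^ 2 ≠ -1 + 0 * r) := ⟨fun r => by
  simpa using h r⟩

lemma om_sq : (⟨0, 1⟩ : Q F) ^ 2 = -1 := by
  open scoped QuadraticAlgebra in
  rw [sq]
  ext <;> simp

lemma decomp (z : Q F) : z = algebraMap F (Q F) z.re + algebraMap F (Q F) z.im * (⟨0, 1⟩ : Q F) := by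
  open scoped QuadraticAlgebra in
  ext <;> simp

end main

section cyc

variable (K : Type) [Field K] [NumberField K] [IsCyclotomicExtension {3} ℚ K]
  [Fact (∀ r : K, r ^ 2 ≠ -1 + 0 * r)]

lemma cyc12 : IsCyclotomicExtension {12} ℚ (Q K) := by
  rw [IsCyclotomicExtension.iff_singleton]
  obtain ⟨ζ, hζ⟩ := IsCyclotomicExtension.exists_isPrimitiveRoot ℚ K (S := {3}) (n := 3) rfl (by norm_num)
  set ζ' : Q K := algebraMap K (Q K) ζ with hζ'
  set x : Q K := ⟨0, 1⟩ with hx
  have hx2 : x ^ 2 = -1 := om_sq K
  have hp : IsPrimitiveRoot ζ' 3 := hζ.map_of_injective (algebraMap K (Q K)).injective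
  have h4' : orderOf x = 2 ^ (1 + 1) := by
    apply orderOf_eq_prime_pow
    · rw [pow_one, hx2]
      norm_num
    · rw [show 2 ^ (1 + 1) = 2 * 2 by norm_num, pow_mul, hx2]
      norm_num
  have h3' : orderOf ζ' = 3 := hp.eq_orderOf.symm
  have h12 : IsPrimitiveRoot (ζ' * x) 12 := by
    have h := (Commute.all ζ' x).orderOf_mul_eq_mul_orderOf_of_coprime (by rw [h3', h4']; norm_num)
    rw [h3', h4'] at h
    rw [show (12 : ℕ) = 3 * 2 ^ (1 + 1) by norm_num, ← h]
    exact IsPrimitiveRoot.orderOf _
  refine ⟨⟨_, h12⟩, fun z => ?_⟩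
  have hK : ∀ y : K, algebraMap K (Q K) y ∈ Algebra.adjoin ℚ {b : Q K | b ^ 12 = 1} := by
    intro y
    have hy : y ∈ Algebra.adjoin ℚ {b : K | b ^ 3 = 1} :=
      ((IsCyclotomicExtension.iff_singleton 3 ℚ K).mp inferInstance).2 y
    induction hy using Algebra.adjoin_induction with
    | mem b hb =>
      apply Algebra.subset_adjoin
      change (algebraMap K (Q K) b) ^ 12 = 1
      have hb' : b ^ 3 = 1 := hb
      rw [show (12 : ℕ) = 3 * 4 by norm_num, pow_mul, ← map_pow, hb']
      simp
    | algebraMap r =>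
      rw [← IsScalarTower.algebraMap_apply ℚ K (Q K)]
      exact Subalgebra.algebraMap_mem _ r
    | add a b _ _ ha hb => rw [map_add]; exact add_mem ha hb
    | mul a b _ _ ha hb => rw [map_mul]; exact mul_mem ha hb
  rw [decomp K z]
  refine add_mem (hK _) (mul_mem (hK _) ?_)
  apply Algebra.subset_adjoin
  change x ^ 12 = 1
  rw [show (12 : ℕ) = 2 * 6 by norm_num, pow_mul, hx2]
  norm_num

end cyc

attribute [local instance] algQ

theorem piece : P_A6 := by
  intro K F _ _ _ _ _ _ _ n hn
  have fK : Fact (∀ r : K, r ^ 2 ≠ -1 + 0 * r) := factQ K (no_i_K K)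
  have fF : Fact (∀ r : F, r ^ 2 ≠ -1 + 0 * r) := factQ F (no_i_F K F n hn)
  have nK : NumberField (Q K) :=
    { to_charZero := inferInstance
      to_finiteDimensional := FiniteDimensional.trans ℚ K (Q K) }
  have nF : NumberField (Q F) :=
    { to_charZero := inferInstance
      to_finiteDimensional := FiniteDimensional.trans ℚ F (Q F) }
  have := galQ K F
  have hgal : IsGalois (Q K) (Q F) := IsGaloisGroup.isGalois Gal(F/K) (Q K) (Q F)
  refine ⟨Q K, inferInstance, nK, inferInstance, Q F, inferInstance, nF, inferInstance, inferInstance,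
    algQ K F, towF K F, towQ K F, ⟨0, 1⟩, cjE K, cjE F, cyc12 K, hgal, ?_⟩
  refine
    { hi := om_sq K
      sq := fun x => ?_
      si := ?_
      res := fun m => ?_
      fixF := fun z hz => ?_
      fixK := fun z hz => ?_
      fr := ?_
      comm := fun g x => ?_
      gen := fun z => ⟨z.re, z.im, ?_⟩
      not := fun y hy => ?_ }
  · ext
    · rfl
    · exact neg_neg _
  · ext
    · exact neg_zero.symm
    · rfl
  · ext
    · rfl
    · exact (map_neg (algebraMap K F) m.im).symm
  · refine ⟨z.re, ?_⟩
    have := congrArg QuadraticAlgebra.im hz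
    have h2 : -z.im = z.im := this
    ext
    · rfl
    · exact (CharZero.neg_eq_self_iff.mp h2).symm
  · refine ⟨z.re, ?_⟩
    have := congrArg QuadraticAlgebra.im hz
    have h2 : -z.im = z.im := this
    ext
    · rfl
    · exact (CharZero.neg_eq_self_iff.mp h2).symm
  · rw [← IsGaloisGroup.card_eq_finrank Gal(F/K) (Q K) (Q F), IsGalois.card_aut_eq_finrank, hn]
  · obtain ⟨h, rfl⟩ := (IsGaloisGroup.mulEquivAlgEquiv Gal(F/K) (Q K) (Q F)).surjective g
    have h1 : ∀ y : Q F, IsGaloisGroup.mulEquivAlgEquiv Gal(F/K) (Q K) (Q F) h y = h • y := fun y => rfl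
    rw [h1, h1]
    ext
    · rfl
    · exact (map_neg h x.im).symm
  · have h1 : algebraMap (Q K) (Q F) ⟨0, 1⟩ = ⟨0, 1⟩ := by
      rw [algQ_apply]
      ext
      · exact map_zero _
      · exact map_one _
    rw [h1]
    exact decomp F z
  · have h1 := congrArg QuadraticAlgebra.im hy
    have h2 : (0 : F) = algebraMap K F 1 := h1
    rw [map_one] at h2
    exact zero_ne_one h2

end Pool.Agent.W2helper15.TQ
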