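import Pool.Agent.W2helper42.TQ.Stm2
import Pool.Agent.W2helper42.TQ.BC
import Pool.Agent.W2helper84.TQ.Fg
import Pool.Agent.W2helper84.TQ.Lin

set_option autoImplicit false

/-!
# Piece E of project TQ: the ring `B[X_1, ..., X_s] / (q_1 X_1 + ... + q_s X_s + h)`
-/

namespace Pool.Agent.W2helper15.TQ

open MvPolynomial Pool.Agent.W2helper42.TQ Pool.Agent.W2helper84.TQ

noncomputable section

lemma fg_quot {p : ℕ} {R : Type} [CommRing R] (I : Ideal R) (h : Fg p R) : Fg p (R ⧸ I) :=
  s_FG.1 p R (R ⧸ I) (Ideal.Quotient.mk I) (s_FG.2.1 _ _ _ Ideal.Quotient.mk_surjective) h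

lemma fg_mv {p : ℕ} {R : Type} [CommRing R] (s : ℕ) (h : Fg p R) :
    Fg p (MvPolynomial (Fin s) R) :=
  s_FG.1 p R _ C (s_FG.2.2.2.2.1 R (Fin s)) h

lemma fg_poly {p : ℕ} {R : Type} [CommRing R] (h : Fg p R) : Fg p (Polynomial R) :=
  s_FG.1 p R _ Polynomial.C (s_FG.2.2.2.1 R) h

variable {p : ℕ} {P : (R : Type) → [CommRing R] → Prop}

lemma iso_iff (hP : IsNice p P) {R S : Type} [CommRing R] [CommRing S] (e : R ≃+* S) :
    P R ↔ P S := ⟨hP.iso R S e, hP.iso S R e.symm⟩

lemma p_mv (hP : IsNice p P) {B : Type} [CommRing B] (hB : Fg p B) (s : ℕ) :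
    P (MvPolynomial (Fin s) B) ↔ P B := by
  induction s with
  | zero => exact iso_iff hP (isEmptyAlgEquiv B (Fin 0)).toRingEquiv
  | succ s ih =>
    rw [← ih, hP.poly _ (fg_mv s hB)]
    exact iso_iff hP (finSuccEquiv B s).toRingEquiv

lemma iso_F {B : Type} [CommRing B] (a : B) (T : Set B) :
    Nonempty (((B ⧸ Ideal.span {a}) ⧸ Ideal.span (Ideal.Quotient.mk (Ideal.span {a}) '' T)) ≃+*
      (B ⧸ Ideal.span ({a} ∪ T))) := by
  refine ⟨(Ideal.quotEquivOfEq ?_).trans ((DoubleQuot.quotQuotEquivQuotSup (Ideal.span {a})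
    (Ideal.span T)).trans (Ideal.quotEquivOfEq ?_))⟩
  · rw [Ideal.map_span]
  · rw [Ideal.span_union]

lemma iso_D {B : Type} [CommRing B] (a : B) (s : ℕ) :
    Nonempty ((MvPolynomial (Fin s) B ⧸ Ideal.span {(C a : MvPolynomial (Fin s) B)}) ≃+*
      MvPolynomial (Fin s) (B ⧸ Ideal.span {a})) := by
  refine ⟨(Ideal.quotEquivOfEq ?_).trans
    (quotientEquivQuotientMvPolynomial (Ideal.span {a})).symm.toRingEquiv⟩
  rw [Ideal.map_span, Set.image_singleton]

lemma map_lin {B B' : Type} [CommRing B] [CommRing B'] (f : B →+* B') {s : ℕ} (q : Fin s → B)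
    (h : B) : MvPolynomial.map f (lin q h) = lin (fun i => f (q i)) (f h) := by
  unfold lin
  simp only [map_add, map_sum, map_mul, MvPolynomial.map_C, MvPolynomial.map_X]

lemma iso_C {B : Type} [CommRing B] (a : B) {s : ℕ} (q : Fin s → B) (h : B) :
    Nonempty ((MvPolynomial (Fin s) B ⧸ Ideal.span {(C a : MvPolynomial (Fin s) B), lin q h}) ≃+*
      (MvPolynomial (Fin s) (B ⧸ Ideal.span {a}) ⧸
        Ideal.span {lin (fun i => Ideal.Quotient.mk (Ideal.span {a}) (q i))
          (Ideal.Quotient.mk (Ideal.span {a}) h)})) := by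
  obtain ⟨e⟩ := bc_quot B (Fin s) (Ideal.span {lin q h}) a
  refine ⟨(Ideal.quotEquivOfEq ?_).trans ((DoubleQuot.quotQuotEquivQuotSup
    (Ideal.span {lin q h}) (Ideal.span {(C a : MvPolynomial (Fin s) B)})).symm.trans
      ((Ideal.quotEquivOfEq ?_).trans (e.trans (Ideal.quotEquivOfEq ?_))))⟩
  · rw [← Ideal.span_union, Set.union_comm]; rfl
  · rw [Ideal.map_span, Set.image_singleton]
  · rw [Ideal.map_span, Set.image_singleton, map_lin]

lemma fse_lin {B : Type} [CommRing B] {s : ℕ} (q : Fin (s + 1) → B) (h : B) :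
    finSuccEquiv B s (lin q h) = Polynomial.C (C (q 0)) * Polynomial.X +
      Polynomial.C (lin (fun i : Fin s => q i.succ) h) := by
  have hC : ∀ b : B, finSuccEquiv B s (C b) = Polynomial.C (C b) := fun b => by
    rw [finSuccEquiv_apply, eval₂Hom_C]; rfl
  unfold lin
  rw [Fin.sum_univ_succ]
  simp only [map_add, map_sum, map_mul, hC, finSuccEquiv_X_zero, finSuccEquiv_X_succ, add_assoc]

lemma iso_A {B : Type} [CommRing B] {s : ℕ} (q : Fin (s + 1) → B) (h : B) :
    Nonempty ((MvPolynomial (Fin (s + 1)) B ⧸ Ideal.span {lin q h}) ≃+*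
      (Polynomial (MvPolynomial (Fin s) B) ⧸ Ideal.span {Polynomial.C (C (q 0)) * Polynomial.X +
        Polynomial.C (lin (fun i : Fin s => q i.succ) h)})) := by
  refine ⟨Ideal.quotientEquiv _ _ (finSuccEquiv B s).toRingEquiv ?_⟩
  rw [Ideal.map_span, Set.image_singleton]
  congr 2
  exact (fse_lin q h).symm

/-- the double quotient -/
def QQ (A : Type) [CommRing A] (J : Ideal A) (x : A) : Type :=
  (A ⧸ J) ⧸ Ideal.span {Ideal.Quotient.mk J x}

instance (A : Type) [CommRing A] (J : Ideal A) (x : A) : CommRing (QQ A J x) :=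
  inferInstanceAs (CommRing ((A ⧸ J) ⧸ Ideal.span {Ideal.Quotient.mk J x}))

/-- the localisation of the quotient -/
def LL (A : Type) [CommRing A] (J : Ideal A) (x : A) : Type :=
  Localization.Away (Ideal.Quotient.mk J x)

instance (A : Type) [CommRing A] (J : Ideal A) (x : A) : CommRing (LL A J x) :=
  inferInstanceAs (CommRing (Localization.Away (Ideal.Quotient.mk J x)))

lemma two_three (hP : IsNice p P) {A : Type} [CommRing A] (J : Ideal A) (x : A) (hA : Fg p A)
    (hx : P (LL A J x)) : P (A ⧸ J) ↔ P (QQ A J x) :=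
  ⟨fun k => hP.closed _ _ (fg_quot J hA) k hx, fun k => hP.total _ _ (fg_quot J hA) k hx⟩

/-- the induction step -/
lemma step (hP : IsNice p P) {B : Type} [CommRing B] (hB : Fg p B) {s : ℕ} (q : Fin (s + 1) → B)
    (h : B) (h0 : P B) (h1 : P (B ⧸ Ideal.span {q 0})) :
    P (MvPolynomial (Fin (s + 1)) B ⧸ Ideal.span {lin q h}) ↔
      P (MvPolynomial (Fin s) (B ⧸ Ideal.span {q 0}) ⧸
        Ideal.span {lin (fun i : Fin s => Ideal.Quotient.mk (Ideal.span {q 0}) (q i.succ))
          (Ideal.Quotient.mk (Ideal.span {q 0}) h)}) := by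
  obtain ⟨J, hJ⟩ : ∃ J : Ideal (Polynomial (MvPolynomial (Fin s) B)),
      J = Ideal.span {Polynomial.C (C (q 0)) * Polynomial.X +
        Polynomial.C (lin (fun i : Fin s => q i.succ) h)} := ⟨_, rfl⟩
  obtain ⟨eA⟩ : Nonempty ((MvPolynomial (Fin (s + 1)) B ⧸ Ideal.span {lin q h}) ≃+*
      (Polynomial (MvPolynomial (Fin s) B) ⧸ J)) := by
    subst hJ; exact iso_A q h
  obtain ⟨e1⟩ : Nonempty (QQ (Polynomial (MvPolynomial (Fin s) B)) J (Polynomial.C (C (q 0))) ≃+*
      Polynomial (MvPolynomial (Fin s) B ⧸ Ideal.span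
        {(C (q 0) : MvPolynomial (Fin s) B), lin (fun i : Fin s => q i.succ) h})) := by
    subst hJ; exact (s_LIN (MvPolynomial (Fin s) B) (C (q 0))
      (lin (fun i : Fin s => q i.succ) h)).1
  obtain ⟨e2⟩ : Nonempty (LL (Polynomial (MvPolynomial (Fin s) B)) J (Polynomial.C (C (q 0))) ≃+*
        Localization.Away (C (q 0) : MvPolynomial (Fin s) B)) := by
    subst hJ; exact (s_LIN (MvPolynomial (Fin s) B) (C (q 0))
      (lin (fun i : Fin s => q i.succ) h)).2
  obtain ⟨eC⟩ := iso_C (q 0) (fun i : Fin s => q i.succ) h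
  obtain ⟨eD⟩ := iso_D (q 0) s
  have hB1 := fg_mv s hB
  have k1 : P (MvPolynomial (Fin s) B) := (p_mv hP hB s).2 h0
  have k2 : P (MvPolynomial (Fin s) B ⧸ Ideal.span {(C (q 0) : MvPolynomial (Fin s) B)}) :=
    (iso_iff hP eD).2 ((p_mv hP (fg_quot _ hB) s).2 h1)
  have k3 := (iso_iff hP e2).2 (hP.opened _ _ hB1 k2 k1)
  have kA : P (MvPolynomial (Fin (s + 1)) B ⧸ Ideal.span {lin q h}) ↔
    P (Polynomial (MvPolynomial (Fin s) B) ⧸ J) := iso_iff hP eA
  have kP := hP.poly (MvPolynomial (Fin s) B ⧸ Ideal.span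
    {(C (q 0) : MvPolynomial (Fin s) B), lin (fun i : Fin s => q i.succ) h}) (fg_quot _ hB1)
  have k5 : P (QQ (Polynomial (MvPolynomial (Fin s) B)) J (Polynomial.C (C (q 0)))) ↔
      P (Polynomial (MvPolynomial (Fin s) B ⧸ Ideal.span
        {(C (q 0) : MvPolynomial (Fin s) B), lin (fun i : Fin s => q i.succ) h})) :=
    iso_iff hP e1
  have k6 := iso_iff hP eC
  exact kA.trans ((two_three hP J _ (fg_poly hB1) k3).trans (k5.trans (kP.symm.trans k6)))

lemma unit_mk {A : Type} [CommRing A] (J : Ideal A) (x y : A) (h : x * y - 1 ∈ J) :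
    IsUnit (Ideal.Quotient.mk J x) := by
  refine isUnit_iff_exists_inv.2 ⟨Ideal.Quotient.mk J y, ?_⟩
  rw [← map_mul, ← sub_eq_zero, ← map_one (Ideal.Quotient.mk J), ← map_sub]
  exact Ideal.Quotient.eq_zero_iff_mem.2 h

lemma iso_zero {B : Type} [CommRing B] (q : Fin 0 → B) (h : B) :
    Nonempty ((MvPolynomial (Fin 0) B ⧸ Ideal.span {lin q h}) ≃+*
      (B ⧸ Ideal.span (Set.range q ∪ {h}))) := by
  refine ⟨Ideal.quotientEquiv _ _ (isEmptyAlgEquiv B (Fin 0)).toRingEquiv ?_⟩
  rw [Ideal.map_span, Set.image_singleton, Set.range_eq_empty, Set.empty_union]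
  congr 2
  show h = isEmptyAlgEquiv B (Fin 0) (lin q h)
  unfold lin
  rw [Fin.sum_univ_zero, zero_add]
  exact ((isEmptyAlgEquiv B (Fin 0)).commutes h).symm

lemma img_succ {B : Type} [CommRing B] {s : ℕ} (q : Fin (s + 1) → B) (S : Set (Fin s)) :
    {q 0} ∪ (fun i : Fin s => q i.succ) '' S = q '' (insert 0 (Fin.succ '' S)) := by
  rw [Set.image_insert_eq, Set.image_image, Set.singleton_union]

lemma hyp_step (hP : IsNice p P) {B : Type} [CommRing B] {s : ℕ} (q : Fin (s + 1) → B)
    (S : Set (Fin s)) (h : P (B ⧸ Ideal.span (q '' (insert 0 (Fin.succ '' S))))) :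
    P ((B ⧸ Ideal.span {q 0}) ⧸ Ideal.span
      ((fun i : Fin s => Ideal.Quotient.mk (Ideal.span {q 0}) (q i.succ)) '' S)) := by
  obtain ⟨e⟩ := iso_F (q 0) ((fun i : Fin s => q i.succ) '' S)
  rw [img_succ, Set.image_image] at e
  exact (iso_iff hP e).2 h

/-- the first and the third part -/
lemma both (hP : IsNice p P) (s : ℕ) : ∀ (B : Type) [CommRing B] (q : Fin s → B) (h : B),
    Fg p B → (∀ S : Set (Fin s), P (B ⧸ Ideal.span (q '' S))) →
    (P (MvPolynomial (Fin s) B ⧸ Ideal.span {lin q h}) ↔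
      P (B ⧸ Ideal.span (Set.range q ∪ {h}))) := by
  induction s with
  | zero =>
    intro B _ q h _ _
    obtain ⟨e⟩ := iso_zero q h
    exact iso_iff hP e
  | succ s ih =>
    intro B _ q h hB hS
    have h0 : P B := by
      have := hS ∅
      rw [Set.image_empty, Ideal.span_empty] at this
      exact (iso_iff hP (RingEquiv.quotientBot B)).1 this
    have h1 : P (B ⧸ Ideal.span {q 0}) := by
      have := hS {0}
      rwa [Set.image_singleton] at this
    rw [step hP hB q h h0 h1, ih _ _ _ (fg_quot _ hB) fun S => hyp_step hP q S (hS _)]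
    obtain ⟨e⟩ := iso_F (q 0) (Set.range (fun i : Fin s => q i.succ) ∪ {h})
    have k1 : {q 0} ∪ (Set.range (fun i : Fin s => q i.succ) ∪ {h}) = Set.range q ∪ {h} := by
      rw [← Set.union_assoc, Set.singleton_union]
      congr 1
      exact (Fin.range_fin_succ q).symm
    have k2 : Ideal.Quotient.mk (Ideal.span {q 0}) '' (Set.range (fun i : Fin s => q i.succ) ∪ {h})
        = Set.range (fun i : Fin s => Ideal.Quotient.mk (Ideal.span {q 0}) (q i.succ)) ∪
          {Ideal.Quotient.mk (Ideal.span {q 0}) h} := by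
      rw [Set.image_union, Set.image_singleton, ← Set.range_comp]; rfl
    rw [k1, k2] at e
    exact iso_iff hP e

/-- the case of one variable of the second part -/
lemma unit_one (hP : IsNice p P) {B : Type} [CommRing B] (hB : Fg p B) (q : Fin 1 → B)
    (h0 : P B) (h1 : P (MvPolynomial (Fin 1) B ⧸ Ideal.span {lin q (-1)})) :
    P (B ⧸ Ideal.span {q 0}) := by
  obtain ⟨eD⟩ := iso_D (q 0) 0
  have hB1 := fg_mv 0 hB
  obtain ⟨J, hJ⟩ : ∃ J : Ideal (Polynomial (MvPolynomial (Fin 0) B)),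
      J = Ideal.span {Polynomial.C (C (q 0)) * Polynomial.X +
        Polynomial.C (lin (fun i : Fin 0 => q i.succ) (-1))} := ⟨_, rfl⟩
  obtain ⟨eA⟩ : Nonempty ((MvPolynomial (Fin (0 + 1)) B ⧸ Ideal.span {lin q (-1)}) ≃+*
      (Polynomial (MvPolynomial (Fin 0) B) ⧸ J)) := by
    subst hJ; exact iso_A (s := 0) q (-1)
  obtain ⟨e2⟩ : Nonempty (Localization.Away (Ideal.Quotient.mk J
      (Polynomial.C (C (q 0) : MvPolynomial (Fin 0) B))) ≃+*
        Localization.Away (C (q 0) : MvPolynomial (Fin 0) B)) := by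
    subst hJ; exact (s_LIN (MvPolynomial (Fin 0) B) (C (q 0))
      (lin (fun i : Fin 0 => q i.succ) (-1))).2
  have hu : IsUnit (Ideal.Quotient.mk J (Polynomial.C (C (q 0) : MvPolynomial (Fin 0) B))) := by
    refine unit_mk J _ Polynomial.X ?_
    rw [hJ]
    refine Ideal.subset_span ?_
    rw [Set.mem_singleton_iff, sub_eq_add_neg]
    congr 1
    unfold lin
    rw [Fin.sum_univ_zero, zero_add, map_neg, map_neg, map_one, map_one]
  have k1 : P (Polynomial (MvPolynomial (Fin 0) B) ⧸ J) := (iso_iff hP eA).1 h1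
  have k2 := hP.iso _ _ (IsLocalization.atUnit (Polynomial (MvPolynomial (Fin 0) B) ⧸ J)
    (Localization.Away (Ideal.Quotient.mk J (Polynomial.C (C (q 0) : MvPolynomial (Fin 0) B))))
    _ hu).toRingEquiv k1
  have k3 := (iso_iff hP e2).1 k2
  have k4 := hP.closed _ _ hB1 ((p_mv hP hB 0).2 h0) k3
  exact (p_mv hP (fg_quot _ hB) 0).1 ((iso_iff hP eD).1 k4)

/-- the second part -/
lemma second (hP : IsNice p P) (s : ℕ) : ∀ (B : Type) [CommRing B] (q : Fin (s + 1) → B),
    Fg p B → (∀ S : Set (Fin (s + 1)), S ≠ Set.univ → P (B ⧸ Ideal.span (q '' S))) →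
    P (MvPolynomial (Fin (s + 1)) B ⧸ Ideal.span {lin q (-1)}) →
      P (B ⧸ Ideal.span (Set.range q)) := by
  induction s with
  | zero =>
    intro B _ q hB hS hC
    have h0 : P B := by
      have := hS ∅ (by
        intro h
        have : (0 : Fin (0 + 1)) ∈ (∅ : Set (Fin (0 + 1))) := by rw [h]; trivial
        exact this)
      rw [Set.image_empty, Ideal.span_empty] at this
      exact (iso_iff hP (RingEquiv.quotientBot B)).1 this
    have h1 := unit_one hP hB q h0 hC
    have h2 : Set.range q = {q 0} := by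
      ext x
      constructor
      · rintro ⟨i, rfl⟩
        rw [show i = 0 from Fin.fin_one_eq_zero i]; rfl
      · rintro rfl
        exact ⟨0, rfl⟩
    rw [h2]; exact h1
  | succ s ih =>
    intro B _ q hB hS hC
    have h0 : P B := by
      have := hS ∅ (by
        intro h
        have : (0 : Fin (s + 1 + 1)) ∈ (∅ : Set (Fin (s + 1 + 1))) := by rw [h]; trivial
        exact this)
      rw [Set.image_empty, Ideal.span_empty] at this
      exact (iso_iff hP (RingEquiv.quotientBot B)).1 this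
    have h1 : P (B ⧸ Ideal.span {q 0}) := by
      have := hS {0} (by
        intro h
        have : (1 : Fin (s + 1 + 1)) ∈ ({0} : Set (Fin (s + 1 + 1))) := by rw [h]; trivial
        exact absurd (Set.mem_singleton_iff.1 this) (by simp))
      rwa [Set.image_singleton] at this
    rw [step hP hB q (-1) h0 h1, map_neg, map_one] at hC
    have h3 := ih _ _ (fg_quot _ hB) (fun S hne => hyp_step hP q S (hS _ (by
      intro h
      apply hne
      rw [Set.eq_univ_iff_forall] at h ⊢
      intro i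
      rcases h i.succ with h' | ⟨j, hj, hj'⟩
      · exact absurd h' (Fin.succ_ne_zero i)
      · rwa [Fin.succ_injective _ hj'] at hj))) hC
    obtain ⟨e⟩ := iso_F (q 0) (Set.range (fun i : Fin (s + 1) => q i.succ))
    have k1 : {q 0} ∪ Set.range (fun i : Fin (s + 1) => q i.succ) = Set.range q := by
      rw [Set.singleton_union]
      exact (Fin.range_fin_succ q).symm
    have k2 : Ideal.Quotient.mk (Ideal.span {q 0}) '' (Set.range (fun i : Fin (s + 1) => q i.succ))
        = Set.range (fun i : Fin (s + 1) => Ideal.Quotient.mk (Ideal.span {q 0}) (q i.succ)) := by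
      rw [← Set.range_comp]; rfl
    rw [k1, k2] at e
    exact (iso_iff hP e).1 h3

theorem piece_E : S_E := by
  intro p P hP
  refine ⟨?_, ?_, ?_⟩
  · intro B _ s q h hB hS hC
    exact (both hP s B q h hB hS).1 hC
  · intro B _ s q hB hs hS hC
    obtain ⟨t, rfl⟩ : ∃ t, s = t + 1 := ⟨s - 1, by omega⟩
    exact second hP t B q hB hS hC
  · intro B _ s q h hB hS hC
    exact (both hP s B q h hB hS).2 hC

end

end Pool.Agent.W2helper15.TQ
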