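import Pool.Agent.W2helper42.TQ.Stm2

set_option autoImplicit false

/-!
# Piece SHAPE of project TQ: presentations by the equations `Special`
-/

namespace Pool.Agent.W2helper15.TQ

open MvPolynomial Pool.Agent.W2helper42.TQ

noncomputable section

/-- the map `v` respects the relations between the elements of `S` -/
def Resp {R B : Type} [CommRing R] [CommRing B] (S : Finset R) (v : R → B) : Prop :=
  (1 ∈ S → v 1 = 1) ∧ (∀ s ∈ S, ∀ t ∈ S, s * t ∈ S → v s * v t = v (s * t)) ∧
    ∀ s ∈ S, ∀ t ∈ S, s + t ∈ S → v s + v t = v (s + t)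

lemma Resp.mono {R B : Type} [CommRing R] [CommRing B] {S T : Finset R} {v : R → B} (h : S ⊆ T)
    (hv : Resp T v) : Resp S v :=
  ⟨fun h1 => hv.1 (h h1), fun s hs t ht hst => hv.2.1 s (h hs) t (h ht) (h hst),
    fun s hs t ht hst => hv.2.2 s (h hs) t (h ht) (h hst)⟩

variable {p : ℕ} {R : Type} [CommRing R] [Algebra (ZMod p) R] {m : ℕ} (a : Fin m → R)

/-- the value of `f` is computed in `S` -/
def Comp (S : Finset R) (f : MvPolynomial (Fin m) (ZMod p)) : Prop :=
  aeval a f ∈ S ∧ ∀ (B : Type) [CommRing B] [Algebra (ZMod p) B] (v : R → B), Resp S v →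
    aeval (v ∘ a) f = v (aeval a f)

/-- all elements of `S` are computed in `S` -/
def GoodS (p : ℕ) {R : Type} [CommRing R] [Algebra (ZMod p) R] {m : ℕ} (a : Fin m → R)
    (S : Finset R) : Prop :=
  ∀ s ∈ S, ∃ f : MvPolynomial (Fin m) (ZMod p), aeval a f = s ∧ Comp a S f

variable {a}

lemma Comp.mono {S T : Finset R} {f : MvPolynomial (Fin m) (ZMod p)} (h : S ⊆ T)
    (hf : Comp a S f) : Comp a T f :=
  ⟨h hf.1, fun B _ _ v hv => hf.2 B v (hv.mono h)⟩

lemma GoodS.union [DecidableEq R] {S T : Finset R} (hS : GoodS p a S) (hT : GoodS p a T) :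
    GoodS p a (S ∪ T) := by
  intro s hs
  rcases Finset.mem_union.1 hs with h | h
  · obtain ⟨f, h1, h2⟩ := hS s h
    exact ⟨f, h1, h2.mono Finset.subset_union_left⟩
  · obtain ⟨f, h1, h2⟩ := hT s h
    exact ⟨f, h1, h2.mono Finset.subset_union_right⟩

lemma GoodS.insert [DecidableEq R] {S : Finset R} (hS : GoodS p a S)
    {f : MvPolynomial (Fin m) (ZMod p)} (hf : Comp a (insert (aeval a f) S) f) :
    GoodS p a (insert (aeval a f) S) := by
  intro s hs
  rcases Finset.mem_insert.1 hs with h | h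
  · exact ⟨f, h.symm, hf⟩
  · obtain ⟨g, h1, h2⟩ := hS s h
    exact ⟨g, h1, h2.mono (Finset.subset_insert _ _)⟩

/-- `f` is computed in some good set -/
def Ex (a : Fin m → R) (f : MvPolynomial (Fin m) (ZMod p)) : Prop :=
  ∃ S : Finset R, GoodS p a S ∧ Comp a S f

lemma ex_add {f g : MvPolynomial (Fin m) (ZMod p)} (hf : Ex a f) (hg : Ex a g) : Ex a (f + g) := by
  classical
  obtain ⟨S, hS, hf⟩ := hf
  obtain ⟨T, hT, hg⟩ := hg
  have hc : Comp a (insert (aeval a (f + g)) (S ∪ T)) (f + g) := by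
    refine ⟨Finset.mem_insert_self _ _, fun B _ _ v hv => ?_⟩
    have h1 := (hf.mono (T := insert (aeval a (f + g)) (S ∪ T)) (Finset.subset_union_left.trans
      (Finset.subset_insert _ _)))
    have h2 := (hg.mono (T := insert (aeval a (f + g)) (S ∪ T)) (Finset.subset_union_right.trans
      (Finset.subset_insert _ _)))
    have h3 := h1.2 B v hv
    have h4 := h2.2 B v hv
    rw [map_add, h3, h4, map_add]
    refine hv.2.2 _ h1.1 _ h2.1 ?_
    rw [← map_add]
    exact Finset.mem_insert_self _ _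
  exact ⟨_, (hS.union hT).insert hc, hc⟩

lemma ex_mul {f g : MvPolynomial (Fin m) (ZMod p)} (hf : Ex a f) (hg : Ex a g) : Ex a (f * g) := by
  classical
  obtain ⟨S, hS, hf⟩ := hf
  obtain ⟨T, hT, hg⟩ := hg
  have hc : Comp a (insert (aeval a (f * g)) (S ∪ T)) (f * g) := by
    refine ⟨Finset.mem_insert_self _ _, fun B _ _ v hv => ?_⟩
    have h1 := (hf.mono (T := insert (aeval a (f * g)) (S ∪ T)) (Finset.subset_union_left.trans
      (Finset.subset_insert _ _)))
    have h2 := (hg.mono (T := insert (aeval a (f * g)) (S ∪ T)) (Finset.subset_union_right.trans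
      (Finset.subset_insert _ _)))
    have h3 := h1.2 B v hv
    have h4 := h2.2 B v hv
    rw [map_mul, h3, h4, map_mul]
    refine hv.2.1 _ h1.1 _ h2.1 ?_
    rw [← map_mul]
    exact Finset.mem_insert_self _ _
  exact ⟨_, (hS.union hT).insert hc, hc⟩

lemma ex_single {f : MvPolynomial (Fin m) (ZMod p)} (h : Comp a {aeval a f} f) : Ex a f := by
  refine ⟨{aeval a f}, fun s hs => ?_, h⟩
  rw [Finset.mem_singleton] at hs
  exact ⟨f, hs.symm, h⟩

lemma ex_one : Ex a (1 : MvPolynomial (Fin m) (ZMod p)) := by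
  refine ex_single ⟨Finset.mem_singleton_self _, fun B _ _ v hv => ?_⟩
  rw [map_one, map_one]
  refine (hv.1 ?_).symm
  rw [map_one]
  exact Finset.mem_singleton_self _

lemma ex_zero : Ex a (0 : MvPolynomial (Fin m) (ZMod p)) := by
  refine ex_single ⟨Finset.mem_singleton_self _, fun B _ _ v hv => ?_⟩
  rw [map_zero] at hv ⊢
  have h0 : (0 : R) ∈ ({0} : Finset R) := Finset.mem_singleton_self _
  have := hv.2.2 0 h0 0 h0 (by rw [add_zero]; exact h0)
  rw [add_zero] at this
  rw [map_zero]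
  exact (add_eq_left.1 this).symm

lemma ex_X (i : Fin m) : Ex a (X i : MvPolynomial (Fin m) (ZMod p)) := by
  refine ex_single ⟨Finset.mem_singleton_self _, fun B _ _ v hv => ?_⟩
  rw [aeval_X, aeval_X]; rfl

lemma ex_nat (k : ℕ) : Ex a ((k : ℕ) : MvPolynomial (Fin m) (ZMod p)) := by
  induction k with
  | zero => rw [Nat.cast_zero]; exact ex_zero
  | succ k ih => rw [Nat.cast_succ]; exact ex_add ih ex_one

lemma ex_neg_one : Ex a (-1 : MvPolynomial (Fin m) (ZMod p)) := by
  classical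
  obtain ⟨S, hS, h0⟩ := ex_zero (a := a) (p := p)
  obtain ⟨T, hT, h1⟩ := ex_one (a := a) (p := p)
  have hc : Comp a (insert (aeval a (-1 : MvPolynomial (Fin m) (ZMod p))) (S ∪ T))
      (-1 : MvPolynomial (Fin m) (ZMod p)) := by
    refine ⟨Finset.mem_insert_self _ _, fun B _ _ v hv => ?_⟩
    have h3 := (h0.mono (T := insert (aeval a (-1 : MvPolynomial (Fin m) (ZMod p))) (S ∪ T))
      (Finset.subset_union_left.trans (Finset.subset_insert _ _)))
    have h4 := (h1.mono (T := insert (aeval a (-1 : MvPolynomial (Fin m) (ZMod p))) (S ∪ T))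
      (Finset.subset_union_right.trans (Finset.subset_insert _ _)))
    have h5 := h3.2 B v hv
    have h6 := h4.2 B v hv
    have h7 := hv.2.2 _ (Finset.mem_insert_self _ _) _ h4.1 (by
      rw [← map_add, neg_add_cancel]; exact h3.1)
    rw [← map_add, neg_add_cancel, ← h5, ← h6, map_zero, map_one] at h7
    rw [map_neg, map_one]
    exact (eq_neg_of_add_eq_zero_left h7).symm
  exact ⟨_, (hS.union hT).insert hc, hc⟩

lemma ex_int (k : ℤ) : Ex a ((k : ℤ) : MvPolynomial (Fin m) (ZMod p)) := by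
  obtain ⟨n, rfl | rfl⟩ := Int.eq_nat_or_neg k
  · rw [Int.cast_natCast]; exact ex_nat n
  · rw [Int.cast_neg, Int.cast_natCast, ← neg_one_mul]; exact ex_mul ex_neg_one (ex_nat n)

lemma ex_all (f : MvPolynomial (Fin m) (ZMod p)) : Ex a f := by
  induction f using MvPolynomial.induction_on with
  | C c =>
    obtain ⟨k, rfl⟩ := ZMod.intCast_surjective c
    rw [map_intCast]
    exact ex_int _
  | add f g hf hg => exact ex_add hf hg
  | mul_X f i hf => exact ex_mul hf (ex_X i)

lemma ex_finset (F : Finset (MvPolynomial (Fin m) (ZMod p))) :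
    ∃ S : Finset R, GoodS p a S ∧ ∀ f ∈ F, Comp a S f := by
  classical
  induction F using Finset.induction_on with
  | empty => exact ⟨∅, fun s hs => absurd hs (Finset.notMem_empty s), fun f hf =>
      absurd hf (Finset.notMem_empty f)⟩
  | insert f F _ ih =>
    obtain ⟨S, hS, h⟩ := ih
    obtain ⟨T, hT, h'⟩ := ex_all (a := a) f
    refine ⟨S ∪ T, hS.union hT, fun g hg => ?_⟩
    rcases Finset.mem_insert.1 hg with rfl | hg
    · exact h'.mono Finset.subset_union_right
    · exact (h g hg).mono Finset.subset_union_left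

lemma special_finite (p n : ℕ) :
    {P : MvPolynomial (Fin n) (ZMod p) | Special P}.Finite := by
  have h1 : (Set.range fun t : Fin n × Fin n × Fin n =>
      (X t.1 * X t.2.1 - X t.2.2 : MvPolynomial (Fin n) (ZMod p))).Finite := Set.finite_range _
  have h2 : (Set.range fun t : Fin n × Fin n × Fin n =>
      (X t.1 + X t.2.1 - X t.2.2 : MvPolynomial (Fin n) (ZMod p))).Finite := Set.finite_range _
  have h3 : (Set.range fun t : Fin n => (X t - 1 : MvPolynomial (Fin n) (ZMod p))).Finite :=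
    Set.finite_range _
  refine ((h1.union h2).union h3).subset ?_
  rintro P (⟨a, b, c, rfl⟩ | ⟨a, b, c, rfl⟩ | ⟨a, rfl⟩)
  · exact Or.inl (Or.inl ⟨(a, b, c), rfl⟩)
  · exact Or.inl (Or.inr ⟨(a, b, c), rfl⟩)
  · exact Or.inr ⟨a, rfl⟩

lemma noeth (p : ℕ) : IsNoetherianRing (ZMod p) := by
  rcases Nat.eq_zero_or_pos p with rfl | hp
  · exact inferInstanceAs (IsNoetherianRing ℤ)
  · haveI : NeZero p := ⟨hp.ne'⟩
    infer_instance

/-- the presentation, for all `p` (`ZMod 0` is the ring of the integers) -/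
theorem shape_all (p : ℕ) (R : Type) [CommRing R] (hR : Fg p R) :
    ∃ (n r : ℕ) (q : Fin r → MvPolynomial (Fin n) (ZMod p)), (∀ i, Special (q i)) ∧
      Nonempty (R ≃+* (MvPolynomial (Fin n) (ZMod p) ⧸ Ideal.span (Set.range q))) := by
  classical
  have := noeth p
  obtain ⟨f, hf⟩ := hR
  let _ : Algebra (ZMod p) R := f.toAlgebra
  have hft : Algebra.FiniteType (ZMod p) R := hf
  obtain ⟨m, φ, hφ⟩ := Algebra.FiniteType.iff_quotient_mvPolynomial''.1 hft
  obtain ⟨a, ha⟩ : ∃ a : Fin m → R, ∀ i, a i = φ (X i) := ⟨_, fun _ => rfl⟩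
  have hφa : φ = aeval a := by
    rw [aeval_unique φ]
    congr 1
    funext i
    exact (ha i).symm
  rw [hφa] at hφ
  obtain ⟨F, hF⟩ : ∃ F : Finset (MvPolynomial (Fin m) (ZMod p)),
      Ideal.span (F : Set (MvPolynomial (Fin m) (ZMod p))) =
        RingHom.ker (aeval a : MvPolynomial (Fin m) (ZMod p) →ₐ[ZMod p] R) :=
    (isNoetherianRing_iff_ideal_fg _).1 inferInstance _
  obtain ⟨S, hS, hc⟩ := ex_finset (a := a) (F ∪ Finset.univ.image X)
  obtain ⟨n, hn⟩ : ∃ n, n = S.card := ⟨_, rfl⟩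
  obtain ⟨e⟩ : Nonempty (Fin n ≃ S) := ⟨(S.equivFinOfCardEq hn.symm).symm⟩
  obtain ⟨r, q, _, hq⟩ := ((special_finite p n).subset
    (Set.sep_subset {P : MvPolynomial (Fin n) (ZMod p) | Special P}
      fun P => aeval (fun k => (e k : R)) P = 0)).fin_param
  refine ⟨n, r, q, fun i => ?_, ?_⟩
  · have h1 : q i ∈ Set.range q := ⟨i, rfl⟩
    rw [hq] at h1
    exact h1.1
  let B := MvPolynomial (Fin n) (ZMod p) ⧸ Ideal.span (Set.range q)
  have hmk : ∀ P : MvPolynomial (Fin n) (ZMod p), Special P →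
      aeval (fun k => (e k : R)) P = 0 → (Ideal.Quotient.mk (Ideal.span (Set.range q)) P) = 0 := by
    intro P h1 h2
    refine Ideal.Quotient.eq_zero_iff_mem.2 (Ideal.subset_span ?_)
    rw [hq]
    exact ⟨h1, h2⟩
  obtain ⟨v, hv⟩ : ∃ v : R → B, ∀ (s : R) (h : s ∈ S), v s =
      Ideal.Quotient.mk (Ideal.span (Set.range q)) (X (e.symm ⟨s, h⟩)) :=
    ⟨fun s => if h : s ∈ S then Ideal.Quotient.mk (Ideal.span (Set.range q))
      (X (e.symm ⟨s, h⟩)) else 0, fun s h => dif_pos h⟩
  have hresp : Resp S v := by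
    refine ⟨fun h1 => ?_, fun s hs t ht hst => ?_, fun s hs t ht hst => ?_⟩
    · rw [hv 1 h1, ← sub_eq_zero, ← map_one (Ideal.Quotient.mk (Ideal.span (Set.range q))),
        ← map_sub]
      refine hmk _ (Or.inr (Or.inr ⟨_, rfl⟩)) ?_
      rw [map_sub, aeval_X, map_one, Equiv.apply_symm_apply, sub_self]
    · rw [hv s hs, hv t ht, hv (s * t) hst, ← sub_eq_zero, ← map_mul, ← map_sub]
      refine hmk _ (Or.inl ⟨_, _, _, rfl⟩) ?_
      rw [map_sub, map_mul, aeval_X, aeval_X, aeval_X, Equiv.apply_symm_apply,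
        Equiv.apply_symm_apply, Equiv.apply_symm_apply, sub_self]
    · rw [hv s hs, hv t ht, hv (s + t) hst, ← sub_eq_zero, ← map_add, ← map_sub]
      refine hmk _ (Or.inr (Or.inl ⟨_, _, _, rfl⟩)) ?_
      rw [map_sub, map_add, aeval_X, aeval_X, aeval_X, Equiv.apply_symm_apply,
        Equiv.apply_symm_apply, Equiv.apply_symm_apply, sub_self]
  -- the map `B → R`
  have hspan : ∀ x ∈ Ideal.span (Set.range q),
      (aeval (fun k => (e k : R)) : MvPolynomial (Fin n) (ZMod p) →ₐ[ZMod p] R) x = 0 := by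
    intro x hx
    have h1 : Ideal.span (Set.range q) ≤ RingHom.ker
        (aeval (fun k => (e k : R)) : MvPolynomial (Fin n) (ZMod p) →ₐ[ZMod p] R) := by
      rw [Ideal.span_le]
      intro y hy
      rw [hq] at hy
      exact hy.2
    exact h1 hx
  let ψ : B →ₐ[ZMod p] R := Ideal.Quotient.liftₐ (Ideal.span (Set.range q))
    (aeval (fun k => (e k : R))) hspan
  have hψ : ∀ s ∈ S, ψ (v s) = s := by
    intro s hs
    rw [hv s hs]
    show aeval (fun k => (e k : R)) (X (e.symm ⟨s, hs⟩) : MvPolynomial (Fin n) (ZMod p)) = s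
    rw [aeval_X, Equiv.apply_symm_apply]
  -- the map `A → B`
  let α : MvPolynomial (Fin m) (ZMod p) →ₐ[ZMod p] B := aeval (v ∘ a)
  have hα : ∀ g, Comp a S g → α g = v (aeval a g) := fun g hg => hg.2 B v hresp
  have hψα : ∀ g, ψ (α g) = aeval a g := by
    intro g
    have h1 : ψ.comp α = aeval a := by
      refine MvPolynomial.algHom_ext fun i => ?_
      show ψ (α (X i)) = aeval a (X i)
      have h2 : Comp a S (X i : MvPolynomial (Fin m) (ZMod p)) :=
        hc _ (Finset.mem_union_right _ (Finset.mem_image.2 ⟨i, Finset.mem_univ _, rfl⟩))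
      rw [hα _ h2, hψ _ h2.1]
    rw [← h1]; rfl
  have hαsur : Function.Surjective α := by
    have h1 : ∀ P : MvPolynomial (Fin n) (ZMod p),
        Ideal.Quotient.mk (Ideal.span (Set.range q)) P ∈ α.range := by
      intro P
      have h2 : (Ideal.Quotient.mkₐ (ZMod p) (Ideal.span (Set.range q))).range ≤ α.range := by
        rw [← Algebra.map_top, ← MvPolynomial.adjoin_range_X, AlgHom.map_adjoin,
          Algebra.adjoin_le_iff]
        rintro _ ⟨_, ⟨k, rfl⟩, rfl⟩
        obtain ⟨g, hg1, hg2⟩ := hS (e k) (e k).2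
        refine ⟨g, ?_⟩
        show α g = Ideal.Quotient.mk (Ideal.span (Set.range q)) (X k)
        rw [hα g hg2, hg1, hv _ (e k).2]
        congr 2
        exact e.symm_apply_apply k
      exact h2 ⟨P, rfl⟩
    intro b
    obtain ⟨P, rfl⟩ := Ideal.Quotient.mk_surjective b
    exact h1 P
  have hψinj : Function.Injective ψ := by
    rw [injective_iff_map_eq_zero]
    intro b hb
    obtain ⟨g, rfl⟩ := hαsur b
    rw [hψα] at hb
    have h1 : g ∈ Ideal.span (F : Set (MvPolynomial (Fin m) (ZMod p))) := by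
      rw [hF]; exact hb
    have h2 : Ideal.span (F : Set (MvPolynomial (Fin m) (ZMod p))) ≤ RingHom.ker α := by
      rw [Ideal.span_le]
      intro g' hg'
      have h3 : Comp a S g' := hc _ (Finset.mem_union_left _ hg')
      have h4 : aeval a g' = 0 := by
        have : g' ∈ RingHom.ker (aeval a : MvPolynomial (Fin m) (ZMod p) →ₐ[ZMod p] R) := by
          rw [← hF]; exact Ideal.subset_span hg'
        exact this
      show α g' = 0
      have h5 := h3.1
      rw [h4] at h5
      rw [hα g' h3, h4]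
      have h6 := hresp.2.2 0 h5 0 h5 (by rw [add_zero]; exact h5)
      rw [add_zero] at h6
      exact add_eq_left.1 h6
    exact h2 h1
  have hψsur : Function.Surjective ψ := by
    intro x
    obtain ⟨g, hg⟩ := hφ x
    exact ⟨α g, by rw [hψα]; exact hg⟩
  exact ⟨(RingEquiv.ofBijective ψ ⟨hψinj, hψsur⟩).symm⟩

theorem shape : S_SHAPE := fun p _ R _ hR => shape_all p R hR

end

end Pool.Agent.W2helper15.TQ
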